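import Pool.Agent.Y605.HY.Dim

/-!
# Straight-line realizability of `k`-uniform linear hypergraphs is `∃ℝ`-hard for every `k ≥ 3`

The hypergraphs, linearity, straight-line realizations and the class `∃ℝ` are those of the file
`RankThree`.  Its hypergraphs have hyperedges of size two and three.  Here every hyperedge gets
private vertices until it has exactly `k` vertices: in a realization by the hulls of the
hyperedges any two segments meet in at most one point, so there is room for the new vertices.
By generic projections a hypergraph has a straight-line realization in `ℝ^D`, `D ≥ 2`, if and only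
if it has one in the plane.
-/

set_option autoImplicit false

namespace Pool.Agent.Results.MP_cb2e2a_lc.EveryUniformity

open Pool.Agent.NPC Pool.Agent.NPC.ER Pool.Agent.Results.MP_cb2e2a_lc.RankThree

/-- Existence of a straight-line realization in `ℝ^D`: the vertices are mapped injectively to
points and every hyperedge `e` to a closed segment such that the vertices lying on this segment
are exactly the vertices of `e`. -/
def RealizableIn (D : ℕ) (H : HG) : Prop :=
  ∃ p : ℕ → EuclideanSpace ℝ (Fin D), Set.InjOn p (verts H : Set ℕ) ∧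
    ∀ e ∈ hedges H, ∃ a b : EuclideanSpace ℝ (Fin D),
      ∀ v ∈ verts H, p v ∈ segment ℝ a b ↔ v ∈ e

/-- For every fixed `k ≥ 3` straight-line realizability of `k`-uniform linear hypergraphs (every
hyperedge has exactly `k` vertices), in the plane or in `ℝ^D` with `D ≥ 2`, is `∃ℝ`-hard, while
every hypergraph of rank two is realizable. -/
theorem result :
    (∀ k : ℕ, 3 ≤ k → ∀ L : Set (List Bool), InER L → ∃ f : List Bool → HG,
      PolyTime (fun w => bits (f w)) ∧
      (∀ w, IsHypergraph (f w) ∧ IsLinear (f w) ∧ ∀ e ∈ hedges (f w), e.card = k) ∧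
      ∀ w, (w ∈ L ↔ Realizable (f w)) ∧ ∀ D : ℕ, 2 ≤ D → (w ∈ L ↔ RealizableIn D (f w))) ∧
    ∀ H : HG, IsHypergraph H → RankLE 2 H →
      Realizable H ∧ ∀ D : ℕ, 2 ≤ D → RealizableIn D H := by
  refine ⟨fun k hk L hL => ?_, fun H h1 h2 => ?_⟩
  · obtain ⟨f, hf, h1, h2⟩ := Pool.Agent.Y605.HY.hard hk L hL
    exact ⟨f, hf, h1, fun w => ⟨h2 w, fun D hD =>
      (h2 w).trans (Pool.Agent.Y605.HY.real_iff hD (f w)).symm⟩⟩
  · have h := Pool.Agent.Y605.HY.rank_two H h1 h2
    exact ⟨h, fun D hD => (Pool.Agent.Y605.HY.real_iff hD H).2 h⟩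

end Pool.Agent.Results.MP_cb2e2a_lc.EveryUniformity
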